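import Pool.Agent.H30.BV.Targets

/-! Module FX of bv_modules: finitely many moduli. -/

set_option autoImplicit false

open Finset Real

namespace Pool.Agent.H14.BV

open Pool.Agent.H30.BV

theorem DS_cv_zero {q : ℕ} [NeZero q] (χ : DirichletCharacter ℂ q) {s : ℂ} (hs : 1 < s.re) :
    DS (cv χ) 0 s = DirichletCharacter.LFunction χ s := by
  rw [DirichletCharacter.LFunction_eq_LSeries χ hs]
  unfold DS cv
  congr 1
  funext n
  simp

theorem fx_one {q : ℕ} [NeZero q] (χ : DirichletCharacter ℂ q) (hχ : χ ≠ 1) :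
    ∃ δ : ℝ, 0 < δ ∧ ∀ x : ℝ, 0 < x → x ≤ 1 → δ ≤ ‖DS (cv χ) 0 (1 + x)‖ := by
  have hcont : Continuous fun x : ℝ => ‖DirichletCharacter.LFunction χ (1 + (x : ℂ))‖ := by
    have h1 := (DirichletCharacter.differentiable_LFunction hχ).continuous
    fun_prop
  obtain ⟨x₀, hx₀, hmin⟩ := (isCompact_Icc (a := (0 : ℝ)) (b := 1)).exists_isMinOn
    ⟨0, by simp⟩ hcont.continuousOn
  refine ⟨‖DirichletCharacter.LFunction χ (1 + (x₀ : ℂ))‖, ?_, ?_⟩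
  · rw [norm_pos_iff]
    apply DirichletCharacter.LFunction_ne_zero_of_one_le_re χ (Or.inl hχ)
    simpa using hx₀.1
  · intro x hx0 hx1
    rw [DS_cv_zero χ (by simpa using hx0)]
    exact hmin (show x ∈ Set.Icc (0 : ℝ) 1 from ⟨hx0.le, hx1⟩)

theorem fx_mod (q : ℕ) (hq : 1 ≤ q) :
    ∃ δ : ℝ, 0 < δ ∧ ∀ (χ : DirichletCharacter ℂ q) (x : ℝ), χ ≠ 1 → 0 < x → x ≤ 1 →
      δ ≤ ‖DS (cv χ) 0 (1 + x)‖ := by
  have : NeZero q := ⟨by omega⟩
  classical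
  have h : ∀ χ : DirichletCharacter ℂ q, ∃ δ : ℝ, 0 < δ ∧ ∀ x : ℝ, χ ≠ 1 → 0 < x → x ≤ 1 →
      δ ≤ ‖DS (cv χ) 0 (1 + x)‖ := by
    intro χ
    by_cases hχ : χ = 1
    · exact ⟨1, one_pos, fun x h => absurd hχ h⟩
    · obtain ⟨δ, h0, h1⟩ := fx_one χ hχ
      exact ⟨δ, h0, fun x _ => h1 x⟩
  choose d hd0 hd1 using h
  obtain ⟨χ₀, hχ₀⟩ := Finite.exists_min d
  exact ⟨d χ₀, hd0 χ₀, fun χ x h1 h2 h3 => (hχ₀ χ).trans (hd1 χ x h1 h2 h3)⟩

theorem t_FX : T_FX := by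
  intro M
  induction M with
  | zero => exact ⟨1, one_pos, fun q χ x _ h => absurd h (by omega)⟩
  | succ M ih =>
    obtain ⟨δ, h0, h1⟩ := ih
    by_cases hM : 1 ≤ M
    · obtain ⟨δ', h0', h1'⟩ := fx_mod M hM
      refine ⟨min δ δ', lt_min h0 h0', ?_⟩
      intro q χ x hq hqM hχ hx0 hx1
      rcases Nat.lt_succ_iff_lt_or_eq.mp hqM with h | h
      · exact (min_le_left _ _).trans (h1 q χ x hq h hχ hx0 hx1)
      · subst h
        exact (min_le_right _ _).trans (h1' χ x hχ hx0 hx1)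
    · refine ⟨δ, h0, ?_⟩
      intro q χ x hq hqM hχ hx0 hx1
      omega

end Pool.Agent.H14.BV
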