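import Pool.Agent.H30.BV.Targets

/-! Module LO of bv_modules: lower bound for all moduli except one. -/

set_option autoImplicit false

open Finset Real

namespace Pool.Agent.H14.BV

open Pool.Agent.H30.BV

theorem prim_ne_one {q : ℕ} (hq : 2 ≤ q) (χ : DirichletCharacter ℂ q) (h : χ.IsPrimitive) :
    χ ≠ 1 := by
  rintro rfl
  have : NeZero q := ⟨by omega⟩
  have h1 := (DirichletCharacter.isPrimitive_def _).mp h
  rw [DirichletCharacter.conductor_one] at h1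
  omega

theorem norm_cv_le {q : ℕ} (χ : DirichletCharacter ℂ q) (n : ℕ) : ‖cv χ n‖ ≤ 1 :=
  DirichletCharacter.norm_le_one χ _

/-- the elementary inequality `a + b ≤ 2 a b` -/
theorem add_le_two_mul {a b : ℝ} (ha : 1 ≤ a) (hb : 1 ≤ b) : a + b ≤ 2 * (a * b) := by
  nlinarith [mul_nonneg (sub_nonneg.2 ha) (sub_nonneg.2 hb)]

theorem one_le_log_three {t : ℝ} (ht : 3 ≤ t) : 1 ≤ Real.log t := by
  rw [Real.le_log_iff_exp_le (by linarith)]
  exact (Real.exp_one_lt_d9.le.trans (by norm_num)).trans ht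

theorem log_four_mul {q Q : ℕ} (hq : 2 ≤ q) (hqQ : q ≤ Q) :
    Real.log ((q : ℝ) * (1 + 3)) ≤ 3 * Real.log Q := by
  have hq0 : (0 : ℝ) < q := by exact_mod_cast (by omega : 0 < q)
  have hQ2 : (2 : ℝ) ≤ Q := by exact_mod_cast (by omega : 2 ≤ Q)
  have hqQ' : (q : ℝ) ≤ Q := by exact_mod_cast hqQ
  rw [Real.log_mul hq0.ne' (by norm_num)]
  have h1 : Real.log q ≤ Real.log Q := Real.log_le_log hq0 hqQ'
  have h2 : Real.log (1 + 3) ≤ 2 * Real.log Q := by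
    have : Real.log ((1 : ℝ) + 3) = 2 * Real.log 2 := by
      rw [show (1 : ℝ) + 3 = 2 ^ 2 by norm_num, Real.log_pow]
      norm_num
    rw [this]
    have := Real.log_le_log (by norm_num) hQ2
    linarith
  linarith

open Classical in
/-- the bad moduli -/
def Bad (Q : ℕ) (x Th : ℝ) (q : ℕ) : Prop :=
  2 ≤ q ∧ q ≤ Q ∧ ∃ χ : DirichletCharacter ℂ q, χ.IsPrimitive ∧ χ ^ 2 = 1 ∧
    ‖DS (cv χ) 0 (1 + x)‖ < Th

theorem bad_unique {Ce : ℝ} (hEA : ∀ (Q q₁ q₂ : ℕ) (χ₁ : DirichletCharacter ℂ q₁)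
    (χ₂ : DirichletCharacter ℂ q₂) (x : ℝ), 3 ≤ Q → 2 ≤ q₁ → q₁ ≤ Q → 2 ≤ q₂ → q₂ ≤ Q →
    q₁ ≠ q₂ → χ₁.IsPrimitive → χ₂.IsPrimitive → χ₁ ^ 2 = 1 → χ₂ ^ 2 = 1 → 0 < x → x ≤ 1 →
      1 ≤ Ce / x * ‖DS (cv χ₁) 0 (1 + x)‖ * ‖DS (cv χ₂) 0 (1 + x)‖ * Real.log Q)
    (hCe : 0 < Ce) {Q : ℕ} (hQ : 3 ≤ Q) {x Th : ℝ} (hx : 0 < x) (hx1 : x ≤ 1)
    (hTh : Ce / x * Th ^ 2 * Real.log Q < 1) {q q' : ℕ} (h : Bad Q x Th q) (h' : Bad Q x Th q') :
    q = q' := by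
  by_contra hne
  obtain ⟨h1, h2, χ, h3, h4, h5⟩ := h
  obtain ⟨h1', h2', χ', h3', h4', h5'⟩ := h'
  have hlQ : 0 < Real.log Q := Real.log_pos (by exact_mod_cast (by omega : 1 < Q))
  have key := hEA Q q q' χ χ' x hQ h1 h2 h1' h2' hne h3 h3' h4 h4' hx hx1
  have h6 : ‖DS (cv χ) 0 (1 + x)‖ * ‖DS (cv χ') 0 (1 + x)‖ ≤ Th ^ 2 := by
    rw [sq]
    exact mul_le_mul h5.le h5'.le (norm_nonneg _) ((norm_nonneg _).trans h5.le)
  have h7 : Ce / x * ‖DS (cv χ) 0 (1 + x)‖ * ‖DS (cv χ') 0 (1 + x)‖ * Real.log Q ≤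
      Ce / x * Th ^ 2 * Real.log Q := by
    rw [mul_assoc (Ce / x)]
    gcongr
  linarith

/-- the three cases -/
theorem lo_cases {c4 C : ℝ} (hc4 : 0 < c4) (hC : 1 ≤ C)
    (h4 : ∀ (q : ℕ) (χ : DirichletCharacter ℂ q) (η : ℝ) (s : ℂ),
      1 ≤ q → χ ≠ 1 → 0 < η → η ≤ 1 → 1 < s.re → s.re ≤ 2 → (χ ^ 2 ≠ 1 ∨ η ≤ |s.im|) →
      c4 * η / Real.log (q * (|s.im| + 3)) ^ 9 ≤ ‖DS (cv χ) 0 s‖)
    (hDV : ∀ (f : ℕ → ℂ) (B T : ℝ) (s₁ s₂ : ℂ), 1 ≤ B → 0 ≤ T →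
      (∀ n, ‖f n‖ ≤ 1) → (∀ M, ‖∑ n ∈ range M, f n‖ ≤ B) → 1 < s₁.re → s₁.re ≤ 3 → 1 < s₂.re →
      s₂.re ≤ 3 → |s₁.im| ≤ T → |s₂.im| ≤ T →
      ‖DS f 0 s₁ - DS f 0 s₂‖ ≤ C * Real.log (B * (T + 3)) ^ 2 * ‖s₁ - s₂‖)
    (hTL : T_TL) (hCB : T_CB) {Q : ℕ} (hQ : 3 ≤ Q) {x : ℝ} (hx : 0 < x) (hx1 : x ≤ 1)
    {q : ℕ} (hq : 2 ≤ q) (hqQ : q ≤ Q) (χ : DirichletCharacter ℂ q) (hχ : χ.IsPrimitive)
    (hbad : ¬ Bad Q x (72 * C * x * Real.log Q ^ 2) q) {s : ℂ} (hs : 1 < s.re) (hs2 : s.re ≤ 2) :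
    c4 * x / (512 * (Real.log Q * Real.log (|s.im| + 3)) ^ 9) ≤ ‖DS (cv χ) 0 s‖ ∨
      x / 3 ≤ ‖DS (cv χ) 0 s‖ := by
  have hχ1 := prim_ne_one hq χ hχ
  have hlQ : 1 ≤ Real.log Q := one_le_log_three (by exact_mod_cast hQ)
  have hlt : 1 ≤ Real.log (|s.im| + 3) := one_le_log_three (by linarith [abs_nonneg s.im])
  have hq0 : (0 : ℝ) < q := by exact_mod_cast (by omega : 0 < q)
  have hq1 : (2 : ℝ) ≤ q := by exact_mod_cast hq
  have hqQ' : (q : ℝ) ≤ Q := by exact_mod_cast hqQ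
  by_cases hA : χ ^ 2 ≠ 1 ∨ x ≤ |s.im|
  · left
    refine le_trans ?_ (h4 q χ x s (by omega) hχ1 hx hx1 hs hs2 hA)
    have h5 : Real.log (q * (|s.im| + 3)) ≤ 2 * (Real.log Q * Real.log (|s.im| + 3)) := by
      rw [Real.log_mul hq0.ne' (by linarith [abs_nonneg s.im])]
      have := Real.log_le_log hq0 hqQ'
      linarith [add_le_two_mul hlQ hlt]
    have h6 : 0 < Real.log (q * (|s.im| + 3)) := by
      apply Real.log_pos
      nlinarith [abs_nonneg s.im]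
    have h7 : Real.log (q * (|s.im| + 3)) ^ 9 ≤
        512 * (Real.log Q * Real.log (|s.im| + 3)) ^ 9 := by
      calc Real.log (q * (|s.im| + 3)) ^ 9
          ≤ (2 * (Real.log Q * Real.log (|s.im| + 3))) ^ 9 := by gcongr
        _ = 512 * (Real.log Q * Real.log (|s.im| + 3)) ^ 9 := by rw [mul_pow]; norm_num
    have h8 : 0 < Real.log (q * (|s.im| + 3)) ^ 9 := by positivity
    gcongr
  · right
    push Not at hA
    obtain ⟨hA1, hA2⟩ := hA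
    by_cases hσ : s.re ≤ 1 + x
    · have hnb : 72 * C * x * Real.log Q ^ 2 ≤ ‖DS (cv χ) 0 (1 + x)‖ := by
        by_contra hcon
        push Not at hcon
        exact hbad ⟨hq, hqQ, χ, hχ, hA1, hcon⟩
      have h1x : (1 + (x : ℂ)).re = 1 + x := by simp
      have h1xi : (1 + (x : ℂ)).im = 0 := by simp
      have hd := hDV (cv χ) q 1 (1 + x) s (by linarith) (by norm_num) (norm_cv_le χ)
        (fun M => hCB q χ (by omega) hχ1 M) (by rw [h1x]; linarith) (by rw [h1x]; linarith)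
        hs (by linarith) (by rw [h1xi]; simp) (by linarith)
      have hn : ‖(1 + (x : ℂ)) - s‖ ≤ 2 * x := by
        refine (Complex.norm_le_abs_re_add_abs_im _).trans ?_
        have e1 : ((1 + (x : ℂ)) - s).re = 1 + x - s.re := by simp
        have e2 : ((1 + (x : ℂ)) - s).im = - s.im := by simp
        rw [e1, e2, abs_neg, abs_of_nonneg (by linarith)]
        linarith
      have hl4 := log_four_mul hq hqQ
      have hl0 : 0 ≤ Real.log ((q : ℝ) * (1 + 3)) := Real.log_nonneg (by linarith)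
      have hsq : Real.log ((q : ℝ) * (1 + 3)) ^ 2 ≤ 9 * Real.log Q ^ 2 := by
        calc Real.log ((q : ℝ) * (1 + 3)) ^ 2 ≤ (3 * Real.log Q) ^ 2 := by gcongr
          _ = 9 * Real.log Q ^ 2 := by ring
      have hC0 : 0 < C := by linarith
      have hd2 : ‖DS (cv χ) 0 (1 + x) - DS (cv χ) 0 s‖ ≤ 18 * C * x * Real.log Q ^ 2 := by
        calc ‖DS (cv χ) 0 (1 + x) - DS (cv χ) 0 s‖
            ≤ C * Real.log ((q : ℝ) * (1 + 3)) ^ 2 * ‖(1 + (x : ℂ)) - s‖ := hd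
          _ ≤ C * (9 * Real.log Q ^ 2) * (2 * x) := by gcongr
          _ = 18 * C * x * Real.log Q ^ 2 := by ring
      have htri : ‖DS (cv χ) 0 (1 + x)‖ ≤
          ‖DS (cv χ) 0 (1 + x) - DS (cv χ) 0 s‖ + ‖DS (cv χ) 0 s‖ := by
        have := norm_add_le (DS (cv χ) 0 (1 + x) - DS (cv χ) 0 s) (DS (cv χ) 0 s)
        simpa using this
      have hbig : x ≤ C * x * Real.log Q ^ 2 := by
        have h1 : 1 ≤ C * Real.log Q ^ 2 := by
          have : 1 ≤ Real.log Q ^ 2 := one_le_pow₀ hlQ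
          nlinarith
        nlinarith
      have : 54 * (C * x * Real.log Q ^ 2) ≤ ‖DS (cv χ) 0 s‖ := by linarith
      linarith
    · push Not at hσ
      refine le_trans ?_ (hTL q χ s (by omega) hs (by linarith))
      linarith

theorem t_LO (h4 : T_C4) (hDV : T_DV) (hTL : T_TL) (hEA : T_EA) (hFX : T_FX) (hCB : T_CB) :
    T_LO := by
  obtain ⟨c4, hc4, h4⟩ := h4
  obtain ⟨C3, hC3, hDV⟩ := hDV
  obtain ⟨Ce, hCe, hEA⟩ := hEA
  set C : ℝ := max C3 1 with hCdef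
  have hC1 : 1 ≤ C := le_max_right _ _
  have hC0 : 0 < C := by linarith
  have hDV' : ∀ (f : ℕ → ℂ) (B T : ℝ) (s₁ s₂ : ℂ), 1 ≤ B → 0 ≤ T →
      (∀ n, ‖f n‖ ≤ 1) → (∀ M, ‖∑ n ∈ range M, f n‖ ≤ B) → 1 < s₁.re → s₁.re ≤ 3 → 1 < s₂.re →
      s₂.re ≤ 3 → |s₁.im| ≤ T → |s₂.im| ≤ T →
      ‖DS f 0 s₁ - DS f 0 s₂‖ ≤ C * Real.log (B * (T + 3)) ^ 2 * ‖s₁ - s₂‖ := by
    intro f B T s₁ s₂ a1 a2 a3 a4 a5 a6 a7 a8 a9 a10
    refine (hDV f B T s₁ s₂ a1 a2 a3 a4 a5 a6 a7 a8 a9 a10).trans ?_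
    have : C3 ≤ C := le_max_left _ _
    gcongr
  set D : ℝ := 5184 * Ce * C ^ 2 with hD
  have hD0 : 0 < D := by positivity
  set c5 : ℝ := 1 / (D + 1) with hc5
  have hc50 : 0 < c5 := by positivity
  have hc51 : c5 ≤ 1 := by
    rw [hc5, div_le_one (by positivity)]
    linarith
  have hDc : D * c5 < 1 := by
    rw [hc5, mul_one_div, div_lt_one (by positivity)]
    linarith
  refine ⟨14, min 1 (min (c4 * c5 / 512) (c5 / 3)), by positivity, min_le_left _ _, ?_⟩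
  intro M
  obtain ⟨δ, hδ, hFX⟩ := hFX M
  refine ⟨max 3 ⌈Real.exp (72 * C * c5 / δ)⌉₊, ?_⟩
  intro Q hQ
  have hQ3 : 3 ≤ Q := (le_max_left _ _).trans hQ
  have hlQ : 1 ≤ Real.log Q := one_le_log_three (by exact_mod_cast hQ3)
  have hlQ0 : 0 < Real.log Q := by linarith
  have hQ0 : (0 : ℝ) < Q := by exact_mod_cast (by omega : 0 < Q)
  have hlQδ : 72 * C * c5 / δ ≤ Real.log Q := by
    rw [Real.le_log_iff_exp_le hQ0]
    exact (Nat.le_ceil _).trans (by exact_mod_cast (le_max_right _ _).trans hQ)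
  set x : ℝ := c5 / Real.log Q ^ 5 with hxdef
  have hx : 0 < x := by positivity
  have hx1 : x ≤ 1 := by
    rw [hxdef, div_le_one (by positivity)]
    exact hc51.trans (one_le_pow₀ hlQ)
  set Th : ℝ := 72 * C * x * Real.log Q ^ 2 with hTh
  have hEAth : Ce / x * Th ^ 2 * Real.log Q < 1 := by
    have e : Ce / x * Th ^ 2 * Real.log Q = D * c5 := by
      rw [hTh, hxdef, hD]
      field_simp
      ring
    rw [e]
    exact hDc
  have hThδ : Th ≤ δ := by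
    have e : Th = 72 * C * c5 / Real.log Q ^ 3 := by
      rw [hTh, hxdef]
      field_simp
    rw [e, div_le_iff₀ (by positivity)]
    rw [div_le_iff₀ hδ] at hlQδ
    have : Real.log Q ≤ Real.log Q ^ 3 := le_self_pow₀ hlQ (by norm_num)
    nlinarith
  have hbadM : ∀ q, Bad Q x Th q → M ≤ q := by
    rintro q ⟨h1, h2, χ, h3, h4, h5⟩
    by_contra hcon
    push Not at hcon
    have := hFX q χ x (by omega) hcon (prim_ne_one h1 χ h3) hx hx1
    linarith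
  have hq₁ : ∃ q₁, M ≤ q₁ ∧ ∀ q, q ≠ q₁ → ¬ Bad Q x Th q := by
    by_cases hex : ∃ q₁, Bad Q x Th q₁
    · obtain ⟨q₁, h⟩ := hex
      refine ⟨q₁, hbadM q₁ h, fun q hq hb => hq ?_⟩
      exact bad_unique hEA hCe hQ3 hx hx1 hEAth hb h
    · push Not at hex
      exact ⟨M, le_rfl, fun q _ => hex q⟩
  obtain ⟨q₁, hMq, hq₁⟩ := hq₁
  refine ⟨q₁, hMq, ?_⟩
  intro q χ s hq hqQ hqne hχ hs hs2
  have hlt : 1 ≤ Real.log (|s.im| + 3) := one_le_log_three (by linarith [abs_nonneg s.im])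
  have hlt0 : 0 < Real.log (|s.im| + 3) := by linarith
  have hP0 : 0 < Real.log Q * Real.log (|s.im| + 3) := by positivity
  have hQP : Real.log Q ≤ Real.log Q * Real.log (|s.im| + 3) := le_mul_of_one_le_right hlQ0.le hlt
  have hP1 : 1 ≤ Real.log Q * Real.log (|s.im| + 3) := hlQ.trans hQP
  rcases lo_cases hc4 hC1 h4 hDV' hTL hCB hQ3 hx hx1 hq hqQ χ hχ (hq₁ q hqne) hs hs2 with h | h
  · refine le_trans ?_ h
    have h1 : min 1 (min (c4 * c5 / 512) (c5 / 3)) ≤ c4 * c5 / 512 :=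
      (min_le_right _ _).trans (min_le_left _ _)
    have h2 : c4 * x / (512 * (Real.log Q * Real.log (|s.im| + 3)) ^ 9) =
        (c4 * c5 / 512) / (Real.log Q ^ 5 * (Real.log Q * Real.log (|s.im| + 3)) ^ 9) := by
      rw [hxdef]
      field_simp
    rw [h2]
    have h3 : Real.log Q ^ 5 * (Real.log Q * Real.log (|s.im| + 3)) ^ 9 ≤
        (Real.log Q * Real.log (|s.im| + 3)) ^ 14 := by
      calc Real.log Q ^ 5 * (Real.log Q * Real.log (|s.im| + 3)) ^ 9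
          ≤ (Real.log Q * Real.log (|s.im| + 3)) ^ 5 *
            (Real.log Q * Real.log (|s.im| + 3)) ^ 9 := by gcongr
        _ = (Real.log Q * Real.log (|s.im| + 3)) ^ 14 := by rw [← pow_add]
    gcongr
  · refine le_trans ?_ h
    have h1 : min 1 (min (c4 * c5 / 512) (c5 / 3)) ≤ c5 / 3 :=
      (min_le_right _ _).trans (min_le_right _ _)
    have h2 : x / 3 = (c5 / 3) / Real.log Q ^ 5 := by
      rw [hxdef]
      field_simp
    rw [h2]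
    have h3 : Real.log Q ^ 5 ≤ (Real.log Q * Real.log (|s.im| + 3)) ^ 14 := by
      calc Real.log Q ^ 5 ≤ (Real.log Q * Real.log (|s.im| + 3)) ^ 5 := by gcongr
        _ ≤ (Real.log Q * Real.log (|s.im| + 3)) ^ 14 :=
          pow_le_pow_right₀ hP1 (by norm_num)
    gcongr

end Pool.Agent.H14.BV
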